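import Pool.Agent.Q227.CD.Pol
import Pool.Agent.H622R2.CoNP
import Pool.Agent.H673R2.HardOn

/-!
# The thresholds of the chromatic discrepancy are coNP-hard

The definitions `disc`, `phiC`, `phiHatC`, `phi`, `phiHat` are in `Pool.Agent.Q227.CD.Defs`, and
`entry`, `IsAdjMatrix`, `matGraph` in `Pool.Agent.Q227.MkM`.

The reduction is from the complement of exact cover by 3-sets. For an instance with `3 q` elements
the vertices of the graph are the triples `(e, j, a)`, where `e` is an element of the `j`-th set
and `a < M = 3 q (2 q + 1)`, together with a universal vertex; other vertices are adjacent if both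
`e` and `(j, a)` differ. The colouring by `e` has a subgraph with discrepancy at least `2 q` if and
only if there is an exact cover. A colouring for which the subgraph belonging to the exact cover
in each of the `M` layers has two vertices of the same colour gives many colours to the vertices
with some `e`, which are independent.
-/

set_option autoImplicit false

namespace Pool.Agent.Results.MP_e16607_lc.CoNPHard

open Pool.Agent.NPC Pool.Agent.H673R2 Pool.Agent.Q227 Pool.Agent.Q227.CD

/-- The language `L₁` of the pairs `(G, k)` with `φ(G) ≤ k`. -/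
def L1 (I : List (List Bool) × ℕ) : Prop := IsAdjMatrix I.1 ∧ phi (matGraph I.1) ≤ I.2

/-- The language `L₂` of the pairs `(G, k)` such that the discrepancy for connected subgraphs is at
most `k`. -/
def L2 (I : List (List Bool) × ℕ) : Prop := IsAdjMatrix I.1 ∧ phiHat (matGraph I.1) ≤ I.2

theorem np_eq_conp {α : Type} [TEnc α] {P : α → Prop} (h : CoNPHardP P) (h' : InNPP P)
    (L : Set (List Bool)) : InNP L ↔ InCoNP L := by
  have key : ∀ L, InCoNP L → InNP L := fun L hL => H622R2.InNP.of_reduces (h L hL) h'
  refine ⟨fun hL => key Lᶜ ?_, key L⟩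
  change InNP Lᶜᶜ
  rwa [compl_compl]

theorem hard1 : CoNPHardOn (fun I : List (List Bool) × ℕ => IsAdjMatrix I.1) L1 :=
  coNPHardOn_of Q229.hardPr_X3 inst_poly (fun _ _ => mkM_isAdj adj_symm adj_irrefl)
    fun _ h => (inst_phi h).trans (not_congr
      ⟨fun h1 => ⟨mkM_isAdj adj_symm adj_irrefl, h1⟩, fun h1 => h1.2⟩)

theorem hard2 : CoNPHardOn (fun I : List (List Bool) × ℕ => IsAdjMatrix I.1) L2 :=
  coNPHardOn_of Q229.hardPr_X3 inst_poly (fun _ _ => mkM_isAdj adj_symm adj_irrefl)
    fun _ h => (inst_phiHat h).trans (not_congr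
      ⟨fun h1 => ⟨mkM_isAdj adj_symm adj_irrefl, h1⟩, fun h1 => h1.2⟩)

/-- `L₁` and `L₂` are `coNP`-hard under polynomial-time many-one reductions. Hence, if one of them
is in `NP`, then `NP = coNP`. -/
theorem result :
    (CoNPHardP L1 ∧ CoNPHardP L2) ∧
    (InNPP L1 ∨ InNPP L2 → ∀ L : Set (List Bool), InNP L ↔ InCoNP L) := by
  refine ⟨⟨hard1.toCoNPHardP, hard2.toCoNPHardP⟩, ?_⟩
  rintro (h | h)
  · exact np_eq_conp hard1.toCoNPHardP h
  · exact np_eq_conp hard2.toCoNPHardP h

end Pool.Agent.Results.MP_e16607_lc.CoNPHard
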